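import Pool.Agent.Lib.MP_124863_gt.Wu

namespace Pool.Agent.Retired.MP_124863_gt.KillingSource

open Complex Pool.Agent.Lib.MP_124863_gt

/-- A complete noncompact Kaehler manifold with positive holomorphic bisectional curvature that
carries a one-parameter group of holomorphic isometries with a fixed point all of whose weights are
positive is biholomorphic to `ℂ^n`. -/
theorem result (n : ℕ) (M : Type) [MetricSpace M] [ChartedSpace (Cn n) M] [Riem (Cn n) M]
    [CompleteSpace M] [ConnectedSpace M] [NoncompactSpace M]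
    (hK : Kaehler (Cn n) M) (hR : PositiveBisec n M) (a : ℝ → M → M) (ha : IsomFlow (Cn n) a)
    (p : M) (hp : ∀ t, a t p = p) (L : Cn n ≃L[ℂ] Cn n) (α : Fin n → ℝ) (hα : ∀ j, 0 < α j)
    (hd : ∀ (t : ℝ) (v : Cn n), df ℂ (Cn n) (a t) p (L v) = L fun j => exp (α j * t * I) * v j) :
    Bihol (Cn n) M :=
  have := hK.complex
  have := hK.real
  have := hK.dist
  main ⟨hK.smooth, hK.hermitian, hK.closed⟩ hR ⟨ha.zero, ha.add, ha.smooth, ha.holo, ha.isom⟩
    hp hα hd

end Pool.Agent.Retired.MP_124863_gt.KillingSource
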